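import Pool.Agent.H354.ISO.Defs

/-!
# ISO HOM: homomorphisms of Artin groups to the Heisenberg group (helper906, for helper354)
-/

set_option autoImplicit false

namespace Pool.Agent.H906.ISO.HOM

open Pool.Agent.H354.ISO

section words

variable {B G : Type} [Monoid G] (f : B → G)

/-- the value of the alternating word -/
def W (i j : B) (m : ℕ) : G := ((CoxeterSystem.alternatingWord i j m).map f).prod

theorem W_zero (i j : B) : W f i j 0 = 1 := by
  simp [W, CoxeterSystem.alternatingWord]

theorem W_succ (i j : B) (m : ℕ) : W f i j (m + 1) = W f j i m * f j := by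
  unfold W
  rw [CoxeterSystem.alternatingWord_succ]
  simp

theorem W_even (i j : B) (k : ℕ) : W f i j (2 * k) = (f i * f j) ^ k := by
  induction k with
  | zero => rw [Nat.mul_zero, W_zero, pow_zero]
  | succ k ih =>
    rw [show 2 * (k + 1) = 2 * k + 1 + 1 by ring, W_succ, W_succ, ih, pow_succ, mul_assoc]

theorem W_odd (i j : B) (k : ℕ) : W f i j (2 * k + 1) = (f j * f i) ^ k * f j := by
  rw [W_succ, W_even]

end words

section heis

variable {R : Type} [CommRing R]

theorem x_mul (a b : Heis R) : (a * b).x = a.x + b.x := rfl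
theorem y_mul (a b : Heis R) : (a * b).y = a.y + b.y := rfl
theorem z_mul (a b : Heis R) : (a * b).z = a.z + b.z + a.x * b.y := rfl
theorem x_one : (1 : Heis R).x = 0 := rfl
theorem y_one : (1 : Heis R).y = 0 := rfl
theorem z_one : (1 : Heis R).z = 0 := rfl

theorem x_pow (a : Heis R) (k : ℕ) : (a ^ k).x = k * a.x := by
  induction k with
  | zero => rw [pow_zero, x_one]; simp
  | succ k ih => rw [pow_succ, x_mul, ih]; push_cast; ring

theorem y_pow (a : Heis R) (k : ℕ) : (a ^ k).y = k * a.y := by
  induction k with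
  | zero => rw [pow_zero, y_one]; simp
  | succ k ih => rw [pow_succ, y_mul, ih]; push_cast; ring

theorem z_pow (a b : Heis R) (hx : a.x = b.x) (hy : a.y = b.y) (k : ℕ) :
    (a ^ k).z - (b ^ k).z = k * (a.z - b.z) := by
  induction k with
  | zero => simp
  | succ k ih =>
    rw [pow_succ, pow_succ, z_mul, z_mul, x_pow, x_pow, hx, hy]
    push_cast
    linear_combination ih

/-- the relation of even length -/
theorem even_iff (g h : Heis R) (k : ℕ) :
    (g * h) ^ k = (h * g) ^ k ↔ (k : R) * (g.x * h.y - h.x * g.y) = 0 := by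
  have hx : (g * h).x = (h * g).x := by rw [x_mul, x_mul, add_comm]
  have hy : (g * h).y = (h * g).y := by rw [y_mul, y_mul, add_comm]
  have hz := z_pow (g * h) (h * g) hx hy k
  have hz2 : (g * h).z - (h * g).z = g.x * h.y - h.x * g.y := by
    rw [z_mul, z_mul]
    ring
  rw [hz2] at hz
  constructor
  · intro e
    rw [← hz, e, sub_self]
  · intro e
    rw [e] at hz
    refine Heis.ext ?_ ?_ (sub_eq_zero.1 hz)
    · rw [x_pow, x_pow, hx]
    · rw [y_pow, y_pow, hy]

/-- the relation of odd length -/
theorem odd_imp (g h : Heis R) (k : ℕ) (e : (h * g) ^ k * h = (g * h) ^ k * g) :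
    g.x = h.x ∧ g.y = h.y := by
  constructor
  · have h1 := congrArg Heis.x e
    rw [x_mul, x_mul, x_pow, x_pow, x_mul, x_mul] at h1
    linear_combination -h1
  · have h1 := congrArg Heis.y e
    rw [y_mul, y_mul, y_pow, y_pow, y_mul, y_mul] at h1
    linear_combination -h1

end heis

theorem lift_word {G : Type} [Group G] {n : ℕ} (φ : FreeGroup (Fin n) →* G) (i j : Fin n) (m : ℕ) :
    φ (((CoxeterSystem.alternatingWord i j m).map FreeGroup.of).prod *
        (((CoxeterSystem.alternatingWord j i m).map FreeGroup.of).prod)⁻¹) = 1 ↔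
      W (fun s => φ (FreeGroup.of s)) i j m = W (fun s => φ (FreeGroup.of s)) j i m := by
  rw [map_mul, map_inv, map_list_prod, map_list_prod, List.map_map, List.map_map, mul_inv_eq_one]
  rfl

theorem t_HOM : S_HOM := by
  intro n M R _ X Y
  constructor
  · rintro ⟨Φ, hΦ⟩
    have hrel : ∀ i j : Fin n, M i j ≠ 0 →
        W (fun s => Φ (PresentedGroup.of s)) i j (M i j) =
          W (fun s => Φ (PresentedGroup.of s)) j i (M i j) := by
      intro i j hij
      have h1 := (lift_word (Φ.comp (PresentedGroup.mk _)) i j (M i j)).1 (by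
        rw [MonoidHom.comp_apply]
        rw [PresentedGroup.one_of_mem (Set.mem_ofPred_eq ▸ ⟨i, j, hij, rfl⟩), map_one])
      exact h1
    refine ⟨fun s t hst => ?_, fun s t k hk => ?_⟩
    · obtain ⟨k, hk⟩ := hst
      have h1 := hrel s t (by omega)
      rw [hk, W_odd, W_odd] at h1
      have h2 := odd_imp _ _ k h1
      rw [(hΦ s).1, (hΦ s).2, (hΦ t).1, (hΦ t).2] at h2
      exact h2
    · rcases Nat.eq_zero_or_pos k with rfl | hk0
      · simp
      · have h1 := hrel s t (by omega)
        rw [hk, W_even, W_even] at h1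
        have h2 := (even_iff _ _ k).1 h1
        rw [(hΦ s).1, (hΦ s).2, (hΦ t).1, (hΦ t).2] at h2
        exact h2
  · rintro ⟨h1, h2⟩
    have hrel : ∀ r ∈ {r : FreeGroup (Fin n) | ∃ i j : Fin n, M i j ≠ 0 ∧
      r = ((CoxeterSystem.alternatingWord i j (M i j)).map FreeGroup.of).prod *
        (((CoxeterSystem.alternatingWord j i (M i j)).map FreeGroup.of).prod)⁻¹},
        FreeGroup.lift (fun s => (⟨X s, Y s, 0⟩ : Heis R)) r = 1 := by
      rintro r ⟨i, j, hij, rfl⟩
      rw [lift_word]
      simp only [FreeGroup.lift_apply_of]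
      rcases Nat.even_or_odd (M i j) with he | ho
      · obtain ⟨k, hk⟩ := he
        have hk2 : M i j = 2 * k := by omega
        rw [hk2, W_even, W_even, even_iff]
        exact h2 i j k hk2
      · have h3 := h1 i j ho
        have h4 : (⟨X i, Y i, 0⟩ : Heis R) = ⟨X j, Y j, 0⟩ := by rw [h3.1, h3.2]
        obtain ⟨k, hk⟩ := ho
        rw [hk, W_odd, W_odd]
        simp only [h4]
    refine ⟨PresentedGroup.toGroup hrel, fun s => ?_⟩
    have h5 : PresentedGroup.toGroup hrel (PresentedGroup.of s) = (⟨X s, Y s, 0⟩ : Heis R) :=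
      PresentedGroup.toGroup.of hrel
    rw [h5]
    exact ⟨rfl, rfl⟩

end Pool.Agent.H906.ISO.HOM

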